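import Mathlib
import Pool.Agent.H56.UniversalPairs

namespace Pool.Agent.Results.MP_103265_nt.OnlyIfUpToEight

open Pool.Agent.H56.UniversalPairs

/-- The list of pairs of the conjecture. -/
def S : List (ℕ × ℕ) :=
  [(3, 3), (3, 4), (3, 5), (3, 6), (3, 7), (3, 8), (3, 9), (3, 10), (3, 11), (3, 12),
  (3, 13), (3, 14), (3, 15), (3, 16), (3, 17), (3, 18), (3, 19), (3, 21), (3, 22),
  (3, 23), (3, 24), (3, 26), (3, 27), (3, 29), (3, 30), (4, 4), (4, 5), (4, 6), (4, 7),
  (4, 8), (4, 9), (4, 10), (4, 11), (4, 13), (4, 14), (4, 17), (4, 19), (4, 20), (4, 23),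
  (4, 26), (5, 6), (5, 9), (6, 7), (8, 9)]

/-- The further pairs. -/
def E : List (ℕ × ℕ) :=
  [(3, 34), (3, 35), (3, 36), (3, 37), (3, 38), (3, 40), (3, 43), (4, 38)]

/-- Witnesses: `(j, k, n, B)` where `n` is not represented for `(j, k)` and `B ^ 2 > 2 n`. -/
def T : List (ℕ × ℕ × ℕ × ℕ) :=
  [(3, 20, 51, 11), (3, 25, 51, 11), (3, 28, 131, 17), (3, 31, 51, 11), (3, 32, 274, 24),
  (3, 33, 108, 15), (3, 39, 51, 11), (3, 41, 129, 17), (3, 42, 51, 11), (3, 44, 108, 15),
  (3, 45, 131, 17), (3, 46, 1722, 59), (3, 47, 923, 43), (3, 48, 108, 15), (3, 49, 156, 18),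
  (3, 50, 367, 28), (3, 51, 108, 15), (4, 12, 45, 10), (4, 15, 45, 10), (4, 16, 211, 21),
  (4, 18, 42, 10), (4, 21, 42, 10), (4, 22, 61, 12), (4, 24, 45, 10), (4, 25, 58, 11),
  (4, 27, 42, 10), (4, 28, 58, 11), (4, 29, 73, 13), (4, 30, 42, 10), (4, 31, 61, 12),
  (4, 32, 73, 13), (4, 33, 45, 10), (4, 34, 58, 11), (4, 35, 93, 14), (4, 36, 42, 10),
  (4, 37, 58, 11), (4, 39, 42, 10), (4, 40, 61, 12), (4, 41, 195, 20), (4, 42, 45, 10),
  (5, 5, 66, 12), (5, 7, 220, 21), (5, 8, 11, 5), (5, 10, 21, 7), (5, 11, 21, 7), (6, 6, 26, 8),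
  (6, 8, 38, 9), (6, 9, 12, 5), (6, 10, 21, 7), (6, 11, 89, 14), (6, 12, 21, 7), (7, 7, 10, 5),
  (7, 8, 17, 6), (7, 9, 30, 8), (7, 10, 16, 6), (8, 8, 11, 5), (8, 10, 30, 8), (8, 11, 17, 6),
  (9, 9, 12, 5), (9, 10, 21, 7), (9, 11, 41, 10), (9, 12, 45, 10), (10, 10, 16, 6),
  (10, 11, 26, 8), (10, 12, 21, 7), (10, 13, 16, 6), (10, 14, 26, 8), (10, 15, 21, 7),
  (10, 16, 22, 7)]

set_option maxRecDepth 100000 in
lemma tab : tableOK 7 T = true := by decide +kernel

set_option maxRecDepth 100000 in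
lemma big : chkJ 7 10 5 = true := by decide +kernel

set_option maxRecDepth 100000 in
lemma k3 : chkK 7 3 51 11 = true := by decide +kernel

set_option maxRecDepth 100000 in
lemma c3 : cover (S ++ E) T 3 51 = true := by decide +kernel

set_option maxRecDepth 100000 in
lemma k4 : chkK 7 4 42 10 = true := by decide +kernel

set_option maxRecDepth 100000 in
lemma c4 : cover (S ++ E) T 4 42 = true := by decide +kernel

set_option maxRecDepth 100000 in
lemma k5 : chkK 7 5 11 5 = true := by decide +kernel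

set_option maxRecDepth 100000 in
lemma c5 : cover (S ++ E) T 5 11 = true := by decide +kernel

set_option maxRecDepth 100000 in
lemma k6 : chkK 7 6 12 5 = true := by decide +kernel

set_option maxRecDepth 100000 in
lemma c6 : cover (S ++ E) T 6 12 = true := by decide +kernel

set_option maxRecDepth 100000 in
lemma k7 : chkK 7 7 10 5 = true := by decide +kernel

set_option maxRecDepth 100000 in
lemma c7 : cover (S ++ E) T 7 10 = true := by decide +kernel

set_option maxRecDepth 100000 in
lemma k8 : chkK 7 8 11 5 = true := by decide +kernel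

set_option maxRecDepth 100000 in
lemma c8 : cover (S ++ E) T 8 11 = true := by decide +kernel

set_option maxRecDepth 100000 in
lemma k9 : chkK 7 9 12 5 = true := by decide +kernel

set_option maxRecDepth 100000 in
lemma c9 : cover (S ++ E) T 9 12 = true := by decide +kernel

set_option maxRecDepth 100000 in
lemma k10 : chkK 7 10 16 6 = true := by decide +kernel

set_option maxRecDepth 100000 in
lemma c10 : cover (S ++ E) T 10 16 = true := by decide +kernel

/-- If `(j,k)` is universal then it is in the conjectured list `S` or in the explicit list `E`. -/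
theorem result (j k : ℕ) (hj : 3 ≤ j) (hjk : j ≤ k)
    (hU : ∀ n : ℕ, ∃ (z : ℤ) (x y : ℕ),
      (n : ℤ) = polyNum 7 z + polyNum j x + polyNum k y) :
    (j, k) ∈ S ∨ (j, k) ∈ E := by
  have hU' : Universal 7 j k := hU
  have hlt : j ≤ 10 := by
    by_contra hc
    push Not at hc
    exact not_universal_of_chkJ (by norm_num) hj hjk hc big hU'
  rw [← List.mem_append]
  interval_cases j
  · exact mem_of_universal (by norm_num) tab hj hjk k3 c3 hU'
  · exact mem_of_universal (by norm_num) tab hj hjk k4 c4 hU'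
  · exact mem_of_universal (by norm_num) tab hj hjk k5 c5 hU'
  · exact mem_of_universal (by norm_num) tab hj hjk k6 c6 hU'
  · exact mem_of_universal (by norm_num) tab hj hjk k7 c7 hU'
  · exact mem_of_universal (by norm_num) tab hj hjk k8 c8 hU'
  · exact mem_of_universal (by norm_num) tab hj hjk k9 c9 hU'
  · exact mem_of_universal (by norm_num) tab hj hjk k10 c10 hU'

end Pool.Agent.Results.MP_103265_nt.OnlyIfUpToEight
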